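import Mathlib
import Pool.Agent.Lib.MP_87579d_co.Final

/-!
# Infinitely many pairwise non-isomorphic 4-critical trees

Definitions as in the problem file: repetitions, nonrepetitive colourings, the Thue chromatic
number and 4-critical trees.
-/

set_option autoImplicit false

namespace Pool.Agent.Results.MP_87579d_co.CriticalTrees

/-- The sequence `a_0 a_1 … a_{2n-1}` (`n ≥ 1`) is a repetition: `a_i = a_{i+n}` for all `i < n`. -/
def IsRepetition {α : Type*} (a : List α) : Prop :=
  ∃ n : ℕ, 1 ≤ n ∧ a.length = 2 * n ∧ ∀ i < n, a[i]? = a[i + n]?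

/-- The colouring `φ` of the vertices of `G` is nonrepetitive: the colour sequence of no path of `G`
is a repetition. -/
def Nonrepetitive {V C : Type*} (G : SimpleGraph V) (φ : V → C) : Prop :=
  ∀ (u v : V) (p : G.Walk u v), p.IsPath → ¬ IsRepetition (p.support.map φ)

/-- The Thue chromatic number `π(G)`: the smallest `k` such that `G` has a nonrepetitive colouring
with `k` colours. -/
noncomputable def thue {V : Type*} (G : SimpleGraph V) : ℕ :=
  sInf {k : ℕ | ∃ φ : V → Fin k, Nonrepetitive G φ}

/-- `T` is a 4-critical tree: `π(T) = 4` and `π(T') ≤ 3` for every proper subtree `T'`, that is, every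
subgraph `T'` of `T` which is a tree and is not `T` itself. -/
def FourCritical {V : Type*} (T : SimpleGraph V) : Prop :=
  T.IsTree ∧ thue T = 4 ∧ ∀ T' : T.Subgraph, T'.coe.IsTree → T' ≠ ⊤ → thue T'.coe ≤ 3

/-- A sequence of length `2n` is a repetition with half length `n` iff its two halves agree. -/
lemma isRepetition_iff {α : Type*} (a : List α) :
    IsRepetition a ↔ ∃ n : ℕ, 0 < n ∧ a.length = 2 * n ∧ a.take n = a.drop n := by
  constructor
  · rintro ⟨n, hn, hl, h⟩
    refine ⟨n, hn, hl, ?_⟩
    apply List.ext_getElem?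
    intro i
    rw [List.getElem?_take, List.getElem?_drop]
    by_cases hi : i < n
    · rw [if_pos hi, h i hi, Nat.add_comm]
    · rw [if_neg hi]
      rw [List.getElem?_eq_none (by omega)]
  · rintro ⟨n, hn, hl, h⟩
    refine ⟨n, hn, hl, fun i hi => ?_⟩
    have h1 := congrArg (fun l => l[i]?) h
    simp only [List.getElem?_take, List.getElem?_drop, if_pos hi] at h1
    rw [h1, Nat.add_comm]

lemma nonrepetitive_iff {V C : Type*} (G : SimpleGraph V) (φ : V → C) :
    Nonrepetitive G φ ↔ ∀ (u v : V) (p : G.Walk u v), p.IsPath →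
      ∀ n : ℕ, 0 < n → p.support.length = 2 * n →
        (p.support.map φ).take n ≠ (p.support.map φ).drop n := by
  unfold Nonrepetitive
  refine forall_congr' fun u => forall_congr' fun v => forall_congr' fun p => imp_congr_right fun _ => ?_
  rw [isRepetition_iff]
  push Not
  rw [List.length_map]

/-- There is an infinite sequence of pairwise non-isomorphic 4-critical trees; moreover for every
`N` there is a 4-critical tree with more than `N` vertices. -/
theorem result :
    (∃ T : ℕ → Σ m : ℕ, SimpleGraph (Fin m), (∀ k, FourCritical (T k).2) ∧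
      ∀ j k, j ≠ k → IsEmpty ((T j).2 ≃g (T k).2)) ∧
    ∀ N : ℕ, ∃ m : ℕ, N < m ∧ ∃ T : SimpleGraph (Fin m), FourCritical T := by
  have key : ∀ N : ℕ, ∃ m : ℕ, N < m ∧ ∃ T : SimpleGraph (Fin m), FourCritical T := by
    intro N
    obtain ⟨m, hm, G, hG, h3, ⟨c, h4⟩, hsub⟩ := Pool.Agent.MP87579d.exists_critical (N + 1)
    refine ⟨m, hm, G, hG, ?_, ?_⟩
    · have hmem : 4 ∈ {k : ℕ | ∃ φ : Fin m → Fin k, Nonrepetitive G φ} :=
        ⟨c, (nonrepetitive_iff G c).mpr h4⟩
      apply le_antisymm
      · exact Nat.sInf_le hmem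
      · refine le_csInf ⟨4, hmem⟩ ?_
        rintro k ⟨φ, hφ⟩
        by_contra hlt
        apply h3
        have hk : k ≤ 3 := by omega
        refine ⟨fun x => Fin.castLE hk (φ x), (nonrepetitive_iff _ _).mp ?_⟩
        intro u v p hp hrep
        apply hφ u v p hp
        obtain ⟨n, hn, hl, h⟩ := hrep
        refine ⟨n, hn, by simpa using hl, fun i hi => ?_⟩
        have h1 := h i hi
        rw [List.getElem?_map, List.getElem?_map] at h1 ⊢
        have hinj : Function.Injective (fun x : Fin k => Fin.castLE hk x) :=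
          Fin.castLE_injective hk
        have h2 : Option.map (fun x : Fin k => Fin.castLE hk x) (Option.map φ p.support[i]?) =
            Option.map (fun x : Fin k => Fin.castLE hk x) (Option.map φ p.support[i + n]?) := by
          rw [Option.map_map, Option.map_map]
          exact h1
        exact Option.map_injective hinj h2
    · intro T' hT' hne
      obtain ⟨c', hc'⟩ := hsub T' ⟨hT'.connected⟩ hne
      exact Nat.sInf_le ⟨c', (nonrepetitive_iff _ _).mpr hc'⟩
  refine ⟨?_, key⟩
  choose m hm T hT using key
  let s : ℕ → ℕ := fun k => Nat.rec 0 (fun _ x => m x) k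
  have hs : ∀ k, s (k + 1) = m (s k) := fun k => rfl
  have hmono : StrictMono s := strictMono_nat_of_lt_succ fun k => by
    rw [hs]; exact hm (s k)
  refine ⟨fun k => ⟨m (s k), T (s k)⟩, fun k => hT (s k), fun j k hjk => ⟨fun e => ?_⟩⟩
  have h1 := Fintype.card_congr e.toEquiv
  rw [Fintype.card_fin, Fintype.card_fin] at h1
  have h2 : s (j + 1) = s (k + 1) := h1
  have h3 : j + 1 = k + 1 := hmono.injective h2
  omega

end Pool.Agent.Results.MP_87579d_co.CriticalTrees
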